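import Pool.Agent.Q202.Sun.Main

/-!
# 2-sunflowerability implies sunflowerability

`L` is an arbitrary first-order language and `M` an infinite `L`-structure. If `M` is
`2`-sunflowerable, then `M` is `n`-sunflowerable for every `n`.
-/

open FirstOrder FirstOrder.Language

namespace Pool.Agent.Results.MP_615e1a_lc.Collapse

universe u v w x

/-- A set `S` of finite sets is a sunflower if there is a set `r` such that `p ∩ q = r` for all
distinct `p, q ∈ S`. -/
def IsSunflower {X : Type x} (S : Set (Finset X)) : Prop :=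
  ∃ r : Set X, ∀ p ∈ S, ∀ q ∈ S, p ≠ q → (p : Set X) ∩ (q : Set X) = r

/-- `M` is `n`-sunflowerable: every `L`-structure `Y` isomorphic to `M` whose underlying set
consists of `n`-element sets (finite subsets of some type `X`) has a substructure `Z` that is
isomorphic to `Y` and whose underlying set is a sunflower. -/
def NSunflowerable (L : Language.{v, w}) (M : Type u) [L.Structure M] (n : ℕ) : Prop :=
  ∀ (X : Type x) (Y : Set (Finset X)) (_ : L.Structure Y), (∀ p ∈ Y, p.card = n) →
    Nonempty (M ≃[L] Y) →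
    ∃ Z : L.Substructure Y, Nonempty (Z ≃[L] Y) ∧
      IsSunflower ((fun y : Y => (y : Finset X)) '' (Z : Set Y))

/-- `M` is sunflowerable if it is `n`-sunflowerable for every natural number `n`. -/
def Sunflowerable (L : Language.{v, w}) (M : Type u) [L.Structure M] : Prop :=
  ∀ n : ℕ, NSunflowerable.{u, v, w, x} L M n

theorem injFam_of_nSunflowerable {L : Language.{v, w}} {M : Type u} [L.Structure M] {n : ℕ}
    (H : NSunflowerable.{u, v, w, u} L M n) : Q202.Sun.InjFam L M n := by
  intro X f hf hcard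
  let Y : Set (Finset X) := Set.range f
  let ε : M ≃ Y := Equiv.ofInjective f hf
  letI : L.Structure Y := ε.inducedStructure
  let φ : M ≃[L] Y := ε.inducedStructureEquiv
  have hφ : ∀ m, ((φ m : Y) : Finset X) = f m := fun m => rfl
  obtain ⟨Z, ⟨ψ⟩, r, hr⟩ := H X Y inferInstance (by rintro p ⟨m, rfl⟩; exact hcard m) ⟨φ⟩
  let e : M ↪[L] M :=
    φ.symm.toEmbedding.comp (Z.subtype.comp (ψ.symm.toEmbedding.comp φ.toEmbedding))
  have he : ∀ m, f (e m) = ((ψ.symm (φ m) : Z) : Y).1 := by
    intro m
    rw [← hφ (e m)]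
    have : φ (e m) = ((ψ.symm (φ m) : Z) : Y) := by
      change φ (φ.symm _) = _
      rw [φ.apply_symm_apply]
      rfl
    rw [this]
  refine ⟨e, r, ?_⟩
  intro m m' hm
  apply hr
  · rw [he]; exact ⟨_, (ψ.symm (φ m)).2, rfl⟩
  · rw [he]; exact ⟨_, (ψ.symm (φ m')).2, rfl⟩
  · intro h
    exact hm (e.injective (hf h))

theorem nSunflowerable_of_fam {L : Language.{v, w}} {M : Type u} [L.Structure M] {n : ℕ}
    (H : ∀ (X : Type x) (f : M → Finset X), (∀ m, (f m).card = n) →
      ∃ (e : M ↪[L] M) (r : Set X), ∀ m m', m ≠ m' → (f (e m) : Set X) ∩ f (e m') = r) :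
    NSunflowerable.{u, v, w, x} L M n := by
  rintro X Y instY hY ⟨φ⟩
  obtain ⟨e, r, he⟩ := H X (fun m => (φ m : Finset X)) (fun m => hY _ (φ m).2)
  let g : Y ↪[L] Y := φ.toEmbedding.comp (e.comp φ.symm.toEmbedding)
  refine ⟨g.toHom.range, ⟨g.equivRange.symm⟩, r, ?_⟩
  rintro p ⟨y, hy, rfl⟩ q ⟨z, hz, rfl⟩ hpq
  obtain ⟨y', rfl⟩ := hy
  obtain ⟨z', rfl⟩ := hz
  have hne : φ.symm y' ≠ φ.symm z' := by
    intro h
    apply hpq
    have : y' = z' := φ.symm.injective h
    rw [this]
  exact he _ _ hne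

/-- **Every 2-sunflowerable infinite structure, in any first-order language, is
sunflowerable.** -/
theorem result (L : Language.{v, w}) (M : Type u) [L.Structure M] [Infinite M]
    (h : NSunflowerable.{u, v, w, u} L M 2) : Sunflowerable.{u, v, w, x} L M := fun n =>
  nSunflowerable_of_fam (fun X f hf => Q202.Sun.fam_univ (injFam_of_nSunflowerable h) n X f hf)

end Pool.Agent.Results.MP_615e1a_lc.Collapse
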